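import Mathlib
import Pool.Agent.helper87.FourThirds

namespace Pool.Agent.Results.MP_39b49d_nt.Rigidity

open Pool.Agent.helper87

/-- Write `A = ⌈(4/3)^n⌉`. The index `n` is `(P, b, ε)`-rigid if `12^b` divides `A`,
`A - (4/3)^n < ε`, and for every `p ∈ P` the residue of `A` modulo `p` is not a power of `4/3`
(that is, `A * 3^i ≠ 4^i` in `ZMod p` for all `i`). -/
def Rigid (P : Finset ℕ) (b : ℕ) (ε : ℝ) (n : ℕ) : Prop :=
  12 ^ b ∣ ⌈((4 : ℝ) / 3) ^ n⌉₊ ∧
  (⌈((4 : ℝ) / 3) ^ n⌉₊ : ℝ) - ((4 : ℝ) / 3) ^ n < ε ∧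
  ∀ p ∈ P, ∀ i : ℕ, (⌈((4 : ℝ) / 3) ^ n⌉₊ : ZMod p) * 3 ^ i ≠ 4 ^ i

theorem ceil_eq {n : ℕ} (hn : 1 ≤ n) : ⌈((4 : ℝ) / 3) ^ n⌉₊ = fa n + 1 := by
  have h1 := fa_le n
  have h2 := lt_fa n
  have hne : (fa n : ℝ) ≠ ((4 : ℝ) / 3) ^ n := by
    intro h
    rw [div_pow, eq_div_iff (by positivity)] at h
    have h' : fa n * 3 ^ n = 4 ^ n := by exact_mod_cast h
    have h3 : 3 ∣ 4 ^ n := by
      rw [← h']
      exact Dvd.dvd.mul_left (dvd_pow_self 3 (by omega)) _
    have := (Nat.Prime.dvd_of_dvd_pow (by norm_num : Nat.Prime 3) h3)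
    omega
  rw [Nat.ceil_eq_iff (by omega)]
  constructor
  · rw [Nat.add_sub_cancel]
    exact lt_of_le_of_ne h1 hne
  · push_cast
    exact h2.le

/-- A long window of good values forces rigidity at its interior index `n + 13 + b`. -/
theorem rigid_of_good {P : Finset ℕ} (hP : ∀ p ∈ P, p.Prime ∧ 3 < p) {b : ℕ} {ε : ℝ}
    {k : ℕ} (hkb : 2 * b ≤ k) (hkε : ((3 : ℝ) / 4) ^ (k - b) < ε) (hkP : ∀ p ∈ P, p + b ≤ k)
    {n : ℕ} (hcomp : ∀ j ≤ 17 + k, ¬ Comp (fa (n + j))) (hn : 8 ≤ n)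
    (hbig : ∀ p ∈ P, p < fa n) :
    Rigid P b ε (n + 13 + b) := by
  have hg : ∀ j ≤ 17 + k, Good (fa (n + j)) := fun j hj =>
    good_of_not_comp (seven_lt (by omega)) (hcomp j hj)
  have law := run_law hg
  -- the law from the index `n + 13 + b` on
  have law2 : ∀ i ≤ k - b, 3 ^ i * (fa (n + 13 + b + i) + 1) = 4 ^ i * (fa (n + 13 + b) + 1) := by
    intro i hi
    have e1 := law (b + i) (by omega)
    have e2 := law b (by omega)
    rw [← Nat.add_assoc] at e1
    have e3 : 3 ^ b * (3 ^ i * (fa (n + 13 + b + i) + 1)) =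
        3 ^ b * (4 ^ i * (fa (n + 13 + b) + 1)) := by
      calc 3 ^ b * (3 ^ i * (fa (n + 13 + b + i) + 1))
          = 3 ^ (b + i) * (fa (n + 13 + b + i) + 1) := by ring
        _ = 4 ^ (b + i) * (fa (n + 13) + 1) := e1
        _ = 4 ^ i * (4 ^ b * (fa (n + 13) + 1)) := by ring
        _ = 4 ^ i * (3 ^ b * (fa (n + 13 + b) + 1)) := by rw [← e2]
        _ = 3 ^ b * (4 ^ i * (fa (n + 13 + b) + 1)) := by ring
    exact Nat.eq_of_mul_eq_mul_left (by positivity) e3
  have hc := ceil_eq (n := n + 13 + b) (by omega)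
  have hcop : ∀ i j : ℕ, Nat.Coprime (3 ^ i) (4 ^ j) := fun i j => by
    apply Nat.Coprime.pow
    norm_num
  refine ⟨?_, ?_, ?_⟩
  · rw [hc]
    have d4 : 4 ^ b ∣ fa (n + 13 + b) + 1 := by
      have e2 := law b (by omega)
      have : 4 ^ b ∣ 3 ^ b * (fa (n + 13 + b) + 1) := ⟨_, e2⟩
      exact (hcop b b).symm.dvd_of_dvd_mul_left this
    have d3 : 3 ^ b ∣ fa (n + 13 + b) + 1 := by
      have e2 := law2 b (by omega)
      have : 3 ^ b ∣ 4 ^ b * (fa (n + 13 + b) + 1) := ⟨_, e2.symm⟩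
      exact (hcop b b).dvd_of_dvd_mul_left this
    have := (hcop b b).mul_dvd_of_dvd_of_dvd d3 d4
    rwa [← mul_pow] at this
  · rw [hc]
    have e2 := law2 (k - b) le_rfl
    have e3 : ((3 : ℝ) ^ (k - b)) * ((fa (n + 13 + b + (k - b)) : ℝ) + 1) =
        4 ^ (k - b) * ((fa (n + 13 + b) : ℝ) + 1) := by exact_mod_cast e2
    have e4 := fa_le (n + 13 + b + (k - b))
    have e5 : ((fa (n + 13 + b) : ℝ) + 1) =
        ((3 : ℝ) / 4) ^ (k - b) * ((fa (n + 13 + b + (k - b)) : ℝ) + 1) := by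
      rw [div_pow]
      field_simp
      linarith
    have e6 : ((3 : ℝ) / 4) ^ (k - b) * ((4 : ℝ) / 3) ^ (n + 13 + b + (k - b)) =
        ((4 : ℝ) / 3) ^ (n + 13 + b) := by
      rw [pow_add ((4 : ℝ) / 3) (n + 13 + b) (k - b), mul_comm, mul_assoc, ← mul_pow]
      norm_num
    push_cast
    rw [e5]
    have hpos : (0 : ℝ) < ((3 : ℝ) / 4) ^ (k - b) := by positivity
    calc ((3 : ℝ) / 4) ^ (k - b) * ((fa (n + 13 + b + (k - b)) : ℝ) + 1)
          - ((4 : ℝ) / 3) ^ (n + 13 + b)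
        ≤ ((3 : ℝ) / 4) ^ (k - b) * (((4 : ℝ) / 3) ^ (n + 13 + b + (k - b)) + 1)
          - ((4 : ℝ) / 3) ^ (n + 13 + b) := by
          gcongr
      _ = ((3 : ℝ) / 4) ^ (k - b) := by rw [mul_add, e6]; ring
      _ < ε := hkε
  · intro p hp i
    rw [hc]
    obtain ⟨hpp, hp3⟩ := hP p hp
    have hkp := hkP p hp
    have : Fact p.Prime := ⟨hpp⟩
    intro heq
    -- choose `j < p - 1` with `i + j` divisible by `p - 1`
    have hp1 : 0 < p - 1 := by omega
    obtain ⟨j, hj, q, hq⟩ : ∃ j < p - 1, ∃ q, i + j = (p - 1) * q := by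
      refine ⟨(p - 1 - i % (p - 1)) % (p - 1), Nat.mod_lt _ hp1, ?_⟩
      have hd : (p - 1) ∣ i + (p - 1 - i % (p - 1)) % (p - 1) := by
        have hlt := Nat.mod_lt i hp1
        rw [Nat.dvd_iff_mod_eq_zero, Nat.add_mod, Nat.mod_mod, ← Nat.add_mod]
        rw [Nat.add_mod]
        rcases Nat.eq_zero_or_pos (i % (p - 1)) with h0 | h0
        · rw [h0]; simp
        · rw [Nat.mod_eq_of_lt (show p - 1 - i % (p - 1) < p - 1 by omega)]
          rw [Nat.add_sub_cancel' hlt.le]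
          simp
      obtain ⟨q, hq⟩ := hd
      exact ⟨q, hq⟩
    have h3 : (3 : ZMod p) ≠ 0 := by
      intro h
      have : ((3 : ℕ) : ZMod p) = 0 := by exact_mod_cast h
      rw [ZMod.natCast_eq_zero_iff] at this
      have := Nat.le_of_dvd (by norm_num) this
      omega
    have h4 : (4 : ZMod p) ≠ 0 := by
      intro h
      have : ((4 : ℕ) : ZMod p) = 0 := by exact_mod_cast h
      rw [ZMod.natCast_eq_zero_iff] at this
      have hle := Nat.le_of_dvd (by norm_num) this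
      have hp4 : p = 4 := by omega
      rw [hp4] at hpp
      exact absurd hpp (by norm_num)
    have f3 : (3 : ZMod p) ^ (p - 1) = 1 := ZMod.pow_card_sub_one_eq_one h3
    have f4 : (4 : ZMod p) ^ (p - 1) = 1 := ZMod.pow_card_sub_one_eq_one h4
    have lawj := law2 j (by omega)
    have lawj' : (3 : ZMod p) ^ j * ((fa (n + 13 + b + j) : ZMod p) + 1) =
        4 ^ j * ((fa (n + 13 + b) : ZMod p) + 1) := by
      have := congrArg (Nat.cast : ℕ → ZMod p) lawj
      push_cast at this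
      exact this
    push_cast at heq
    -- multiply by `3 ^ i`
    have hval : (3 : ZMod p) ^ (i + j) * ((fa (n + 13 + b + j) : ZMod p) + 1) =
        4 ^ (i + j) := by
      calc (3 : ZMod p) ^ (i + j) * ((fa (n + 13 + b + j) : ZMod p) + 1)
          = 3 ^ i * (3 ^ j * ((fa (n + 13 + b + j) : ZMod p) + 1)) := by ring
        _ = 3 ^ i * (4 ^ j * ((fa (n + 13 + b) : ZMod p) + 1)) := by rw [lawj']
        _ = 4 ^ j * (((fa (n + 13 + b) : ZMod p) + 1) * 3 ^ i) := by ring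
        _ = 4 ^ j * 4 ^ i := by rw [heq]
        _ = 4 ^ (i + j) := by ring
    rw [hq, pow_mul, pow_mul, f3, f4, one_pow, one_mul] at hval
    have hz : ((fa (n + 13 + b + j) : ℕ) : ZMod p) = 0 := by
      have := add_eq_right.mp hval
      exact this
    rw [ZMod.natCast_eq_zero_iff] at hz
    have hlt : p < fa (n + 13 + b + j) :=
      lt_of_lt_of_le (hbig p hp) (fa_mono (by omega))
    have hnc := hcomp (13 + b + j) (by omega)
    apply hnc
    have e : n + (13 + b + j) = n + 13 + b + j := by ring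
    rw [e]
    refine ⟨by omega, fun hprime => ?_⟩
    rcases (Nat.dvd_prime hprime).1 hz with h | h
    · exact hpp.one_lt.ne' h
    · omega

open Classical in
/-- **Rigidity.** Let `C(N)` be the number of `n ≤ N` with `⌊(4/3)^n⌋` composite. For every finite
set `P` of primes larger than `3`, every `b` and every `ε > 0` there are `c > 0` and `K` with
`C(N) ≥ c * #{n ≤ N : n is not (P, b, ε)-rigid} - K` for all `N`. -/
theorem result (P : Finset ℕ) (hP : ∀ p ∈ P, p.Prime ∧ 3 < p) (b : ℕ) (ε : ℝ) (hε : 0 < ε) :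
    ∃ c : ℝ, 0 < c ∧ ∃ K : ℝ, ∀ N : ℕ,
      c * ((((Finset.Icc 1 N).filter (fun n : ℕ => ¬ Rigid P b ε n)).card : ℕ) : ℝ) - K ≤
      (((Finset.Icc 1 N).filter
        (fun n : ℕ => 1 < ⌊((4 : ℝ) / 3) ^ n⌋₊ ∧ ¬ (⌊((4 : ℝ) / 3) ^ n⌋₊).Prime)).card : ℝ) := by
  classical
  obtain ⟨k0, hk0⟩ := exists_pow_lt_of_lt_one hε (show (3 : ℝ) / 4 < 1 by norm_num)
  -- window parameter
  obtain ⟨k, hk⟩ : ∃ k : ℕ, k = 2 * b + k0 + P.sup id := ⟨_, rfl⟩
  have hsup : ∀ p ∈ P, p ≤ P.sup id := fun p hp => Finset.le_sup (f := id) hp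
  have hkb : 2 * b ≤ k := by omega
  have hkε : ((3 : ℝ) / 4) ^ (k - b) < ε := by
    refine lt_of_le_of_lt ?_ hk0
    exact pow_le_pow_of_le_one (by norm_num) (by norm_num) (by omega)
  have hkP : ∀ p ∈ P, p + b ≤ k := fun p hp => by
    have := hsup p hp
    omega
  -- starting point
  obtain ⟨n0, hn0⟩ : ∃ n0 : ℕ, P.sup id < fa n0 := by
    obtain ⟨n0, h⟩ := pow_unbounded_of_one_lt ((P.sup id : ℕ) + 1 : ℝ)
      (show (1 : ℝ) < 4 / 3 by norm_num)
    refine ⟨n0, ?_⟩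
    have := lt_fa n0
    have h' : ((P.sup id : ℕ) : ℝ) < (fa n0 : ℝ) := by linarith
    exact_mod_cast h'
  obtain ⟨m0, hm0⟩ : ∃ m0 : ℕ, m0 = n0 + 8 + 13 + b := ⟨_, rfl⟩
  obtain ⟨W, hW⟩ : ∃ W : ℕ, W = 18 + k + b := ⟨_, rfl⟩
  have hWpos : (0 : ℝ) < W := by rw [hW]; positivity
  -- every nonrigid index `m ≥ m0` has a composite index close to it
  have hnear : ∀ m : ℕ, m0 ≤ m → ¬ Rigid P b ε m →
      ∃ t : ℕ, Comp (fa t) ∧ m ≤ t + 13 + b ∧ t ≤ m + (4 + k) := by
    intro m hm hnr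
    by_contra hcon
    push Not at hcon
    apply hnr
    obtain ⟨n, rfl⟩ : ∃ n, m = n + 13 + b := ⟨m - 13 - b, by omega⟩
    refine rigid_of_good hP hkb hkε hkP (n := n) ?_ (by omega) ?_
    · intro j hj hc
      have := hcon (n + j) hc (by omega)
      omega
    · intro p hp
      have h1 := hsup p hp
      have h2 : fa n0 ≤ fa n := fa_mono (by omega)
      omega
  choose! f hf1 hf2 hf3 using hnear
  refine ⟨1 / W, by positivity, (m0 : ℝ) / W + (4 + k), fun N => ?_⟩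
  change _ ≤ ((compIdx N).card : ℝ)
  -- the large nonrigid indices
  obtain ⟨S, hS⟩ : ∃ S : Finset ℕ,
      S = ((Finset.Icc 1 N).filter (fun n : ℕ => ¬ Rigid P b ε n)) := ⟨_, rfl⟩
  rw [← hS]
  obtain ⟨S', hS'⟩ : ∃ S' : Finset ℕ, S' = S.filter (fun n => m0 ≤ n) := ⟨_, rfl⟩
  have hcard1 : S.card ≤ S'.card + m0 := by
    have h1 : S ⊆ S' ∪ Finset.range m0 := by
      intro x hx
      rw [Finset.mem_union, hS', Finset.mem_filter, Finset.mem_range]
      by_cases h : m0 ≤ x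
      · exact Or.inl ⟨hx, h⟩
      · exact Or.inr (by omega)
    calc S.card ≤ (S' ∪ Finset.range m0).card := Finset.card_le_card h1
      _ ≤ S'.card + (Finset.range m0).card := Finset.card_union_le _ _
      _ = S'.card + m0 := by rw [Finset.card_range]
  have hmemS' : ∀ m ∈ S', m0 ≤ m ∧ m ≤ N ∧ ¬ Rigid P b ε m := by
    intro m hm
    rw [hS', Finset.mem_filter, hS, Finset.mem_filter, Finset.mem_Icc] at hm
    exact ⟨hm.2, hm.1.1.2, hm.1.2⟩
  have hcard2 : S'.card ≤ W * (S'.image f).card := by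
    apply Finset.card_le_mul_card_image
    intro t _
    have hsub : (S'.filter fun x => f x = t) ⊆ Finset.Icc (t - (4 + k)) (t + 13 + b) := by
      intro m hm
      rw [Finset.mem_filter] at hm
      obtain ⟨h1, h2, h3⟩ := hmemS' m hm.1
      have a2 := hf2 m h1 h3
      have a3 := hf3 m h1 h3
      rw [hm.2] at a2 a3
      rw [Finset.mem_Icc]
      omega
    calc (S'.filter fun x => f x = t).card ≤ (Finset.Icc (t - (4 + k)) (t + 13 + b)).card :=
          Finset.card_le_card hsub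
      _ = t + 13 + b + 1 - (t - (4 + k)) := Nat.card_Icc _ _
      _ ≤ W := by omega
  have hcard3 : (S'.image f).card ≤ (compIdx N).card + (4 + k) := by
    have h1 : S'.image f ⊆ compIdx N ∪ Finset.Ioc N (N + (4 + k)) := by
      intro t ht
      rw [Finset.mem_image] at ht
      obtain ⟨m, hm, rfl⟩ := ht
      obtain ⟨h1, h2, h3⟩ := hmemS' m hm
      have a1 := hf1 m h1 h3
      have a2 := hf2 m h1 h3
      have a3 := hf3 m h1 h3
      rw [Finset.mem_union, mem_compIdx, Finset.mem_Ioc]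
      by_cases h : f m ≤ N
      · left
        exact ⟨⟨by omega, h⟩, a1⟩
      · right
        omega
    calc (S'.image f).card ≤ (compIdx N ∪ Finset.Ioc N (N + (4 + k))).card :=
          Finset.card_le_card h1
      _ ≤ (compIdx N).card + (Finset.Ioc N (N + (4 + k))).card := Finset.card_union_le _ _
      _ = (compIdx N).card + (4 + k) := by rw [Nat.card_Ioc]; omega
  have r1 : (S.card : ℝ) ≤ S'.card + m0 := by exact_mod_cast hcard1
  have r2 : (S'.card : ℝ) ≤ W * (S'.image f).card := by exact_mod_cast hcard2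
  have r3 : ((S'.image f).card : ℝ) ≤ (compIdx N).card + (4 + k) := by exact_mod_cast hcard3
  have r4 : (S.card : ℝ) ≤ W * ((compIdx N).card + (4 + k)) + m0 := by
    calc (S.card : ℝ) ≤ S'.card + m0 := r1
      _ ≤ W * (S'.image f).card + m0 := by linarith
      _ ≤ W * ((compIdx N).card + (4 + k)) + m0 := by
        have := mul_le_mul_of_nonneg_left r3 hWpos.le
        linarith
  have r5 : (1 / (W : ℝ)) * S.card ≤ (compIdx N).card + (4 + k) + m0 / W := by
    calc (1 / (W : ℝ)) * S.card ≤ (1 / (W : ℝ)) * (W * ((compIdx N).card + (4 + k)) + m0) :=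
          mul_le_mul_of_nonneg_left r4 (by positivity)
      _ = (compIdx N).card + (4 + k) + m0 / W := by field_simp
  linarith

end Pool.Agent.Results.MP_39b49d_nt.Rigidity
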