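import Pool.Agent.helper74.FT.Composite

namespace Pool.Agent.Results.MP_39b49d_nt.SuperLog

open Pool.Agent.helper74.FT
open Pool.Agent.helper87 (compIdx)

theorem log_two_gt : (0.6931 : ℝ) < Real.log 2 := by
  have := Real.log_two_gt_d9
  linarith

theorem log_two_lt : Real.log 2 < (0.6932 : ℝ) := by
  have := Real.log_two_lt_d9
  linarith

/-- `log (100/81) > 1/5`. -/
theorem log_ratio : (1 / 5 : ℝ) ≤ Real.log (100 / 81) := by
  rw [Real.le_log_iff_exp_le (by norm_num)]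
  have h1 : Real.exp (1 / 5) = (Real.exp 1) ^ (1 / 5 : ℝ) := by
    rw [← Real.exp_mul]; norm_num
  have h2 : (Real.exp (1 / 5)) ^ 5 ≤ (100 / 81 : ℝ) ^ 5 := by
    rw [← Real.exp_nat_mul]
    have : ((5 : ℕ) : ℝ) * (1 / 5) = 1 := by norm_num
    rw [this]
    have := Real.exp_one_lt_d9
    refine le_trans this.le ?_
    norm_num
  exact le_of_pow_le_pow_left₀ (by norm_num) (by norm_num) h2

/-- The numerical form of the growth theorem. -/
theorem log_bound {N P k : ℕ} (hN : 1 ≤ N) (hP : (N : ℝ) ≤ (100 / 81 : ℝ) ^ P)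
    (hk : cJ 0 N < 2 ^ k) :
    Real.log N ≤ Real.log 149 + k * (Real.log 84000000 + 5 * k * Real.log 2 + Real.log (P + 1))
      + 2 * k * Real.log 2 := by
  have h := growth hN hP hk
  have hr : (N : ℝ) ≤ 149 * (84000000 * (2 ^ k) ^ 5 * ((P : ℝ) + 1)) ^ k * (2 ^ k) ^ 2 := by
    exact_mod_cast h
  have hN0 : (0 : ℝ) < N := by exact_mod_cast hN
  have h1 := Real.log_le_log hN0 hr
  have hP0 : (0 : ℝ) < (P : ℝ) + 1 := by positivity
  rw [Real.log_mul (by positivity) (by positivity), Real.log_mul (by norm_num) (by positivity),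
    Real.log_pow, Real.log_mul (by positivity) hP0.ne', Real.log_mul (by norm_num) (by positivity),
    Real.log_pow, Real.log_pow, Real.log_pow] at h1
  have h2 : Real.log ((2 : ℝ) ^ k) = k * Real.log 2 := Real.log_pow _ _
  try rw [h2] at h1
  refine le_trans h1 (le_of_eq ?_)
  push_cast
  ring

/-- For all sufficiently large `N` the number of `n ≤ N` with `⌊(4/3)^n⌋` composite is at least
`exp (√(log N) / 3)`. -/
theorem result : ∃ N₀ : ℕ, ∀ N : ℕ, N₀ ≤ N →
    Real.exp (Real.sqrt (Real.log N) / 3) ≤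
      (((Finset.Icc 1 N).filter
        (fun n : ℕ => 1 < ⌊((4 : ℝ) / 3) ^ n⌋₊ ∧ ¬ (⌊((4 : ℝ) / 3) ^ n⌋₊).Prime)).card : ℝ) := by
  -- a threshold for the logarithm
  have hlog := (Real.isLittleO_log_id_atTop).def (show (0 : ℝ) < 1 / 1000 by norm_num)
  rw [Filter.eventually_atTop] at hlog
  obtain ⟨X0, hX0⟩ := hlog
  obtain ⟨T0, hT0⟩ : ∃ T0 : ℝ, T0 = max 1000 X0 := ⟨_, rfl⟩
  obtain ⟨N0, hN0⟩ : ∃ N0 : ℕ, Real.exp (T0 ^ 2) ≤ N0 := exists_nat_ge _
  refine ⟨max N0 1, fun N hN => ?_⟩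
  have hN1 : 1 ≤ N := le_trans (le_max_right _ _) hN
  have hNr : (1 : ℝ) ≤ N := by exact_mod_cast hN1
  have hN0r : (N0 : ℝ) ≤ N := by
    have : N0 ≤ N := le_trans (le_max_left _ _) hN
    exact_mod_cast this
  obtain ⟨t, ht⟩ : ∃ t : ℝ, t = Real.sqrt (Real.log N) := ⟨_, rfl⟩
  have hlogN : T0 ^ 2 ≤ Real.log N := by
    rw [Real.le_log_iff_exp_le (by linarith)]
    linarith
  have hT1000 : 1000 ≤ T0 := by rw [hT0]; exact le_max_left _ _
  have htT : T0 ≤ t := by
    rw [ht]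
    exact Real.le_sqrt_of_sq_le hlogN
  have ht1 : 1000 ≤ t := by linarith
  have ht2 : t ^ 2 = Real.log N := by
    rw [ht]
    exact Real.sq_sqrt (Real.log_nonneg hNr)
  rw [← ht]
  change _ ≤ ((compIdx N).card : ℝ)
  by_contra hcon
  push Not at hcon
  -- the number of elements of J
  have hs := cJ_le_comp N
  have hsr : (cJ 0 N : ℝ) ≤ 18 * ((compIdx N).card : ℝ) + 93 := by exact_mod_cast hs
  obtain ⟨k, hk⟩ : ∃ k : ℕ, k = ⌈(t / 3 + 5) / Real.log 2⌉₊ := ⟨_, rfl⟩
  have hl1 := log_two_gt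
  have hl2 := log_two_lt
  have hkge : (t / 3 + 5) / Real.log 2 ≤ k := by rw [hk]; exact Nat.le_ceil _
  have hklt : (k : ℝ) < (t / 3 + 5) / Real.log 2 + 1 := by
    rw [hk]
    apply Nat.ceil_lt_add_one
    positivity
  have hsk : cJ 0 N < 2 ^ k := by
    have h1 : Real.exp (t / 3 + 5) ≤ (2 : ℝ) ^ k := by
      have h2 : (2 : ℝ) ^ k = Real.exp (k * Real.log 2) := by
        rw [← Real.log_pow, Real.exp_log (by positivity)]
      rw [h2, Real.exp_le_exp]
      rwa [div_le_iff₀ (by linarith)] at hkge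
    have h3 : 111 * Real.exp (t / 3) < Real.exp (t / 3 + 5) := by
      rw [Real.exp_add, mul_comm]
      apply mul_lt_mul_of_pos_left _ (Real.exp_pos _)
      have h4 := Real.exp_one_gt_d9
      have h5 : Real.exp 5 = (Real.exp 1) ^ 5 := by
        rw [← Real.exp_nat_mul]; norm_num
      rw [h5]
      calc (111 : ℝ) < (2.7 : ℝ) ^ 5 := by norm_num
        _ ≤ (Real.exp 1) ^ 5 := pow_le_pow_left₀ (by norm_num) (by linarith) 5
    have h4 : (1 : ℝ) ≤ Real.exp (t / 3) := Real.one_le_exp (by linarith)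
    have h5 : (cJ 0 N : ℝ) < (2 : ℝ) ^ k := by linarith
    exact_mod_cast h5
  -- the parameter P
  obtain ⟨P, hP⟩ : ∃ P : ℕ, P = ⌈5 * t ^ 2⌉₊ := ⟨_, rfl⟩
  have hPge : 5 * t ^ 2 ≤ P := by rw [hP]; exact Nat.le_ceil _
  have hPlt : (P : ℝ) < 5 * t ^ 2 + 1 := by
    rw [hP]
    apply Nat.ceil_lt_add_one
    positivity
  have hPN : (N : ℝ) ≤ (100 / 81 : ℝ) ^ P := by
    rw [← Real.log_le_log_iff (by linarith) (by positivity), Real.log_pow, ← ht2]
    have := log_ratio
    have hP0 : (0 : ℝ) ≤ P := Nat.cast_nonneg _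
    calc t ^ 2 = (5 * t ^ 2) * (1 / 5) := by ring
      _ ≤ (P : ℝ) * (1 / 5) := by gcongr
      _ ≤ (P : ℝ) * Real.log (100 / 81) := by gcongr
  have hfin := log_bound hN1 hPN hsk
  rw [← ht2] at hfin
  -- bounds for the logarithms
  have hlogP : Real.log (P + 1) ≤ 6 / 1000 * t := by
    have h1 : (P : ℝ) + 1 ≤ (3 * t) ^ 2 := by nlinarith
    have h2 : Real.log (P + 1) ≤ Real.log ((3 * t) ^ 2) :=
      Real.log_le_log (by positivity) h1
    rw [Real.log_pow] at h2
    have h3 := hX0 (3 * t) (by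
      have : X0 ≤ T0 := by rw [hT0]; exact le_max_right _ _
      linarith)
    rw [Real.norm_eq_abs, Real.norm_eq_abs, id, abs_of_nonneg (show (0 : ℝ) ≤ 3 * t by linarith)]
      at h3
    have h4 := le_abs_self (Real.log (3 * t))
    push_cast at h2
    linarith
  have hlog84 : Real.log 84000000 ≤ 20 := by
    have h1 : Real.log 84000000 ≤ Real.log ((2 : ℝ) ^ 27) :=
      Real.log_le_log (by norm_num) (by norm_num)
    rw [Real.log_pow] at h1
    push_cast at h1
    linarith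
  have hlog149 : Real.log 149 ≤ 6 := by
    have h1 : Real.log 149 ≤ Real.log ((2 : ℝ) ^ 8) :=
      Real.log_le_log (by norm_num) (by norm_num)
    rw [Real.log_pow] at h1
    push_cast at h1
    linarith
  have hkle : (k : ℝ) ≤ 0.481 * t + 9 := by
    have h1 : (t / 3 + 5) / Real.log 2 ≤ (t / 3 + 5) / 0.6931 := by
      apply div_le_div_of_nonneg_left _ (by norm_num) hl1.le
      positivity
    have h2 : (t / 3 + 5) / 0.6931 ≤ 0.481 * t + 8 := by
      rw [div_le_iff₀ (by norm_num)]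
      nlinarith
    linarith
  have hk0 : (0 : ℝ) ≤ k := Nat.cast_nonneg _
  have hb0 : (0 : ℝ) ≤ 0.481 * t + 9 := by linarith
  -- final estimate
  have h1 : (k : ℝ) * (Real.log 84000000 + 5 * k * Real.log 2 + Real.log (P + 1)) ≤
      (0.481 * t + 9) * (20 + 5 * (0.481 * t + 9) * 0.6932 + 6 / 1000 * t) := by
    apply mul_le_mul hkle _ _ hb0
    · have h2 : 5 * (k : ℝ) * Real.log 2 ≤ 5 * (0.481 * t + 9) * 0.6932 := by
        apply mul_le_mul _ hl2.le (by linarith) (by linarith)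
        linarith
      linarith
    · have h3 : (0 : ℝ) ≤ Real.log 84000000 := Real.log_nonneg (by norm_num)
      have h4 : (0 : ℝ) ≤ Real.log (P + 1) := Real.log_nonneg (by
        have : (0 : ℝ) ≤ P := Nat.cast_nonneg _
        linarith)
      have h5 : (0 : ℝ) ≤ 5 * (k : ℝ) * Real.log 2 := by
        have : (0 : ℝ) ≤ Real.log 2 := by linarith
        positivity
      linarith
  have h2 : 2 * (k : ℝ) * Real.log 2 ≤ 2 * (0.481 * t + 9) * 0.6932 := by
    apply mul_le_mul _ hl2.le (by linarith) (by linarith)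
    linarith
  nlinarith

end Pool.Agent.Results.MP_39b49d_nt.SuperLog
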